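import Pool.Agent.Q263.KT.Powers

/-!
# Objects whose realisation is a direct factor of that of another object: definitions
-/

set_option autoImplicit false

open CategoryTheory Limits MonoidalCategory

namespace Pool.Agent.Q73.NF

open Pool.Agent.Y112.SR

universe v u w

/-- `M` is (isomorphic to) a direct summand of `N`. -/
def Summand {C : Type u} [Category.{v} C] (M N : C) : Prop :=
  ∃ (i : M ⟶ N) (r : N ⟶ M), i ≫ r = 𝟙 M

section

variable {C : Type u} [Category.{v} C] [Preadditive C] [MonoidalCategory C] [SymmetricCategory C]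
  {K : Type w} [Field K] (R : SuperRealisation C K)

/-- The realisation of `M` is an algebraic direct factor of that of `N`: there are morphisms
`a : M ⟶ N` and `b : N ⟶ M` of `C` such that `a` followed by `b` acts as the identity on the
realisation of `M`. -/
def RealFactor (M N : C) : Prop :=
  ∃ (a : M ⟶ N) (b : N ⟶ M), R.H.map (a ≫ b) = 𝟙 (R.H.obj M)

/-- No direct summand of `M` except zero has zero realisation. -/
def PhantomFree (M : C) : Prop := ∀ P : C, Summand P M → IsZero (R.H.obj P) → IsZero P

/-- All endomorphisms of `M` with zero realisation are nilpotent. -/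
def NilKernel (M : C) : Prop := ∀ f : End M, R.H.map (f : M ⟶ M) = 0 → IsNilpotent f

/-- All endomorphisms of `M` with zero realisation are zero. -/
def FaithfulOn (M : C) : Prop := ∀ f : M ⟶ M, R.H.map f = 0 → f = 0

/-- `M` is the direct sum of `M'` and `P`. -/
def DirectSum (M M' P : C) : Prop :=
  ∃ (i : M' ⟶ M) (r : M ⟶ M') (j : P ⟶ M) (s : M ⟶ P),
    i ≫ r = 𝟙 M' ∧ j ≫ s = 𝟙 P ∧ i ≫ s = 0 ∧ j ≫ r = 0 ∧ r ≫ i + s ≫ j = 𝟙 M

end

end Pool.Agent.Q73.NF
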