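import Pool.Agent.Q73.NF.Defs
import Pool.Agent.Q73.CR.Ring

/-!
# Objects whose realisation is a direct factor of that of another object
-/

set_option autoImplicit false
set_option linter.unusedSectionVars false
set_option backward.isDefEq.respectTransparency false
set_option backward.defeqAttrib.useBackward true

open CategoryTheory Limits MonoidalCategory

namespace Pool.Agent.Q73.NF

open Pool.Agent.Y112.SR Pool.Agent.Y112.KD Pool.Agent.Q263.KT

universe v u w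

section

variable {C : Type u} [Category.{v} C] [Preadditive C] [Linear ℚ C] [MonoidalCategory C]
  [MonoidalPreadditive C] [MonoidalLinear ℚ C] [SymmetricCategory C]
  [RightRigidCategory C] {K : Type w} [Field K] {R : SuperRealisation C K}

/-- The action on the realisation as a ring homomorphism. -/
def rh (R : SuperRealisation C K) (N : C) : End N →+* End (R.H.obj N) where
  toFun f := R.H.map (f : N ⟶ N)
  map_one' := R.H.map_id N
  map_mul' f g := by
    change R.H.map (f * g : End N) = _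
    rw [End.mul_def, End.mul_def, Functor.map_comp]
  map_zero' := R.H.map_zero N N
  map_add' f g := R.H.map_add

lemma exists_core [IsIdempotentComplete C] {M N : C} (hN : NilKernel R N) (h : RealFactor R M N) :
    ∃ M' P : C, DirectSum M M' P ∧ Summand M' N ∧ IsZero (R.H.obj P) := by
  obtain ⟨a, b, hab⟩ := h
  rw [Functor.map_comp] at hab
  let t : End N := (b ≫ a : N ⟶ N)
  have ht' : R.H.map (b ≫ a) ≫ R.H.map (b ≫ a) = R.H.map (b ≫ a) := by
    rw [Functor.map_comp, Category.assoc, ← Category.assoc (R.H.map a), hab, Category.id_comp]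
  have ht : rh R N t * rh R N t = rh R N t := by
    rw [End.mul_def]; exact ht'
  obtain ⟨h, h1, h2, h3⟩ := Pool.Agent.Q73.CR.exists_partial_inverse (rh R N) hN ht
  have h3' : R.H.map (h : N ⟶ N) = R.H.map (b ≫ a) := h3
  have h2' : (h : N ⟶ N) ≫ (b ≫ a) ≫ (h : N ⟶ N) = (h : N ⟶ N) := by
    have := h2
    rw [End.mul_def, End.mul_def] at this
    exact this
  have he : (a ≫ (h : N ⟶ N) ≫ b) ≫ (a ≫ (h : N ⟶ N) ≫ b) = a ≫ (h : N ⟶ N) ≫ b := by
    calc (a ≫ (h : N ⟶ N) ≫ b) ≫ (a ≫ (h : N ⟶ N) ≫ b)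
        = a ≫ ((h : N ⟶ N) ≫ (b ≫ a) ≫ (h : N ⟶ N)) ≫ b := by simp only [Category.assoc]
      _ = _ := by rw [h2']
  have hR : R.H.map (a ≫ (h : N ⟶ N) ≫ b) = 𝟙 _ := by
    rw [Functor.map_comp, Functor.map_comp, h3', Functor.map_comp]
    rw [Category.assoc, hab, Category.comp_id, hab]
  obtain ⟨M', i, r, hir, hri⟩ := IsIdempotentComplete.idempotents_split M _ he
  have he1 : (𝟙 M - a ≫ (h : N ⟶ N) ≫ b) ≫ (𝟙 M - a ≫ (h : N ⟶ N) ≫ b) =
      𝟙 M - a ≫ (h : N ⟶ N) ≫ b := by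
    rw [Preadditive.sub_comp, Preadditive.comp_sub, Preadditive.comp_sub, he]
    simp
  obtain ⟨P, j, s, hjs, hsj⟩ := IsIdempotentComplete.idempotents_split M _ he1
  have hie : i ≫ (a ≫ (h : N ⟶ N) ≫ b) = i := by
    rw [← hri, ← Category.assoc, hir, Category.id_comp]
  have her : (a ≫ (h : N ⟶ N) ≫ b) ≫ r = r := by
    rw [← hri, Category.assoc, hir, Category.comp_id]
  have hj1 : j ≫ (𝟙 M - a ≫ (h : N ⟶ N) ≫ b) = j := by
    rw [← hsj, ← Category.assoc, hjs, Category.id_comp]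
  have hs1 : (𝟙 M - a ≫ (h : N ⟶ N) ≫ b) ≫ s = s := by
    rw [← hsj, Category.assoc, hjs, Category.comp_id]
  have hje : j ≫ (a ≫ (h : N ⟶ N) ≫ b) = 0 := by
    have h4 := hj1
    rw [Preadditive.comp_sub, Category.comp_id, sub_eq_self] at h4
    exact h4
  have hes : (a ≫ (h : N ⟶ N) ≫ b) ≫ s = 0 := by
    have h4 := hs1
    rw [Preadditive.sub_comp, Category.id_comp, sub_eq_self] at h4
    exact h4
  refine ⟨M', P, ⟨i, r, j, s, hir, hjs, ?_, ?_, ?_⟩, ⟨i ≫ a ≫ (h : N ⟶ N), b ≫ r, ?_⟩, ?_⟩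
  · rw [← hie, Category.assoc, hes, comp_zero]
  · rw [← her, ← Category.assoc, hje, zero_comp]
  · rw [hri, hsj]
    abel
  · calc (i ≫ a ≫ (h : N ⟶ N)) ≫ (b ≫ r) = (i ≫ (a ≫ (h : N ⟶ N) ≫ b)) ≫ r := by
          simp only [Category.assoc]
      _ = 𝟙 M' := by rw [hie, hir]
  · rw [IsZero.iff_id_eq_zero, ← CategoryTheory.Functor.map_id, ← hjs, ← hj1, Category.assoc,
      Functor.map_comp, Functor.map_comp, Functor.map_sub, hR, CategoryTheory.Functor.map_id,
      sub_self, zero_comp, comp_zero]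

lemma nilKernel_of_summand {M N : C} (h : Summand M N) (hN : NilKernel R N) : NilKernel R M := by
  obtain ⟨i, r, hir⟩ := h
  intro g hg
  set f : End N := (r ≫ (g : M ⟶ M) ≫ i : N ⟶ N) with hf
  have h1 : R.H.map (f : N ⟶ N) = 0 := by
    rw [hf, Functor.map_comp, Functor.map_comp, hg, zero_comp, comp_zero]
  obtain ⟨k, hk⟩ := hN f h1
  have h2 : (f ^ (k + 1) : End N) = 0 := by rw [pow_succ, hk, zero_mul]
  rw [pow_end f i r hir g hf k] at h2
  refine ⟨k + 1, ?_⟩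
  have h3 : i ≫ (r ≫ ((g ^ (k + 1) : End M) : M ⟶ M) ≫ i) ≫ r = i ≫ (0 : N ⟶ N) ≫ r := by
    rw [h2]
  simp only [Category.assoc, zero_comp, comp_zero] at h3
  rw [hir, Category.comp_id, ← Category.assoc, hir, Category.id_comp] at h3
  exact h3

lemma faithfulOn_of_summand {M N : C} (h : Summand M N) (hN : FaithfulOn R N) :
    FaithfulOn R M := by
  obtain ⟨i, r, hir⟩ := h
  intro f hf
  have h1 : r ≫ f ≫ i = 0 := hN _ (by
    rw [Functor.map_comp, Functor.map_comp, hf, zero_comp, comp_zero])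
  calc f = (i ≫ r) ≫ f ≫ (i ≫ r) := by rw [hir, Category.id_comp, Category.comp_id]
    _ = i ≫ (r ≫ f ≫ i) ≫ r := by simp only [Category.assoc]
    _ = 0 := by rw [h1, zero_comp, comp_zero]

lemma phantomFree_of_nilKernel {M : C} (hM : NilKernel R M) : PhantomFree R M := by
  intro P hP hz
  obtain ⟨k, hk⟩ := nilKernel_of_summand hP hM (1 : End P) (hz.eq_of_src _ _)
  rw [one_pow] at hk
  rw [IsZero.iff_id_eq_zero]
  exact hk

lemma summand_of_phantomFree [IsIdempotentComplete C] {M N : C} (hN : NilKernel R N)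
    (h : RealFactor R M N) (hM : PhantomFree R M) : Summand M N := by
  obtain ⟨M', P, ⟨i, r, j, s, h1, h2, h3, h4, h5⟩, ⟨x, y, hxy⟩, hP⟩ := exists_core hN h
  have hP0 : IsZero P := hM P ⟨j, s, h2⟩ hP
  have h6 : r ≫ i = 𝟙 M := by
    rw [hP0.eq_of_tgt s 0, zero_comp, add_zero] at h5
    exact h5
  refine ⟨r ≫ x, y ≫ i, ?_⟩
  calc (r ≫ x) ≫ y ≫ i = r ≫ (x ≫ y) ≫ i := by simp only [Category.assoc]
    _ = 𝟙 M := by rw [hxy, Category.id_comp, h6]

lemma split_of_nilKernel {M N : C} (hM : NilKernel R M) (a : M ⟶ N) (b : N ⟶ M)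
    (hab : R.H.map (a ≫ b) = 𝟙 (R.H.obj M)) : IsSplitMono a ∧ IsSplitEpi b := by
  obtain ⟨c, hc⟩ : ∃ c : End M, c = (𝟙 M - a ≫ b : M ⟶ M) := ⟨_, rfl⟩
  have h0 : R.H.map (c : M ⟶ M) = 0 := by
    rw [hc, Functor.map_sub, hab, CategoryTheory.Functor.map_id, sub_self]
  obtain ⟨U, hU⟩ := (hM c h0).isUnit_one_sub
  have h2 : (a ≫ b : M ⟶ M) = ((U : End M) : M ⟶ M) := by
    rw [hU, hc]
    change a ≫ b = 𝟙 M - (𝟙 M - a ≫ b)
    abel
  have h3 : ((U : End M) : M ⟶ M) ≫ ((↑U⁻¹ : End M) : M ⟶ M) = 𝟙 M := by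
    have h4 : (↑U⁻¹ : End M) * (U : End M) = 1 := Units.inv_mul U
    exact h4
  have h5 : ((↑U⁻¹ : End M) : M ⟶ M) ≫ ((U : End M) : M ⟶ M) = 𝟙 M := by
    have h4 : (U : End M) * (↑U⁻¹ : End M) = 1 := Units.mul_inv U
    exact h4
  constructor
  · exact IsSplitMono.mk' ⟨b ≫ ((↑U⁻¹ : End M) : M ⟶ M), by rw [← Category.assoc, h2, h3]⟩
  · exact IsSplitEpi.mk' ⟨((↑U⁻¹ : End M) : M ⟶ M) ≫ a, by rw [Category.assoc, h2, h5]⟩

theorem tfae_nil [IsIdempotentComplete C] {M N : C} (hN : NilKernel R N)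
    (h : RealFactor R M N) :
    [Summand M N, PhantomFree R M, NilKernel R M,
      ∀ (a : M ⟶ N) (b : N ⟶ M), R.H.map (a ≫ b) = 𝟙 (R.H.obj M) →
        IsSplitMono a ∧ IsSplitEpi b].TFAE := by
  tfae_have 1 → 3 := fun h1 => nilKernel_of_summand h1 hN
  tfae_have 3 → 2 := fun h1 => phantomFree_of_nilKernel h1
  tfae_have 2 → 1 := fun h1 => summand_of_phantomFree hN h h1
  tfae_have 3 → 4 := fun h1 a b hab => split_of_nilKernel h1 a b hab
  tfae_have 4 → 1 := by
    intro h1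
    obtain ⟨a, b, hab⟩ := h
    obtain ⟨⟨h2⟩⟩ := (h1 a b hab).1
    exact ⟨a, h2.retraction, h2.id⟩
  tfae_finish

end

section

variable {C : Type u} [Category.{v} C] [Preadditive C] [Linear ℚ C] [MonoidalCategory C]
  [MonoidalPreadditive C] [MonoidalLinear ℚ C] [SymmetricCategory C]
  [RightRigidCategory C] {K : Type w} [Field K] {R : SuperRealisation C K}

lemma nilKernel_of_isKimura (hU : UnitQ C) {N : C} (h : IsKimura N) : NilKernel R N := by
  obtain ⟨D⟩ := exists_KD h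
  exact D.nilR hU

theorem tfae_kimura [IsIdempotentComplete C] (hU : UnitQ C) {M N : C} (hN : IsKimura N)
    (h : RealFactor R M N) :
    [IsKimura M, Summand M N, PhantomFree R M, NilKernel R M,
      ∀ (a : M ⟶ N) (b : N ⟶ M), R.H.map (a ≫ b) = 𝟙 (R.H.obj M) →
        IsSplitMono a ∧ IsSplitEpi b].TFAE := by
  have hT := tfae_nil (nilKernel_of_isKimura (R := R) hU hN) h
  tfae_have 2 ↔ 3 := hT.out 0 1
  tfae_have 2 ↔ 4 := hT.out 0 2
  tfae_have 2 ↔ 5 := hT.out 0 3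
  tfae_have 1 → 4 := fun h1 => nilKernel_of_isKimura hU h1
  tfae_have 2 → 1 := fun ⟨i, r, hir⟩ => isKimura_of_retract R hU i r hir hN
  tfae_finish

end

end Pool.Agent.Q73.NF
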