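import Pool.Agent.Q73.NF.Main

/-!
# The largest summands with nil kernel and with zero realisation
-/

set_option autoImplicit false
set_option linter.unusedSectionVars false
set_option backward.isDefEq.respectTransparency false
set_option backward.defeqAttrib.useBackward true

open CategoryTheory Limits MonoidalCategory

namespace Pool.Agent.Q73.NF

open Pool.Agent.Y112.SR Pool.Agent.Y112.KD Pool.Agent.Q263.KT

universe v u w

section

variable {C : Type u} [Category.{v} C] [Preadditive C] [Linear ℚ C] [MonoidalCategory C]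
  [MonoidalPreadditive C] [MonoidalLinear ℚ C] [SymmetricCategory C]
  [RightRigidCategory C] {K : Type w} [Field K] {R : SuperRealisation C K}

/-- Nilpotent endomorphisms. -/
def NilM {X : C} (f : X ⟶ X) : Prop := @IsNilpotent (End X) _ _ f

/-- `x` followed by `y` is the identity minus a nilpotent endomorphism. -/
lemma inv_of_nilpotent {T A : C} (x : T ⟶ A) (y : A ⟶ T) (c : T ⟶ T)
    (hxy : x ≫ y + c = 𝟙 T) (hc : NilM c) :
    ∃ z : T ⟶ T, (x ≫ y) ≫ z = 𝟙 T ∧ z ≫ (x ≫ y) = 𝟙 T := by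
  obtain ⟨U, hU⟩ := IsNilpotent.isUnit_one_sub hc
  have h2 : (x ≫ y : T ⟶ T) = ((U : End T) : T ⟶ T) := by
    rw [hU]
    change x ≫ y = 𝟙 T - c
    rw [← hxy]
    abel
  refine ⟨((↑U⁻¹ : End T) : T ⟶ T), ?_, ?_⟩
  · rw [h2]
    have h4 : (↑U⁻¹ : End T) * (U : End T) = 1 := Units.inv_mul U
    exact h4
  · rw [h2]
    have h4 : (U : End T) * (↑U⁻¹ : End T) = 1 := Units.mul_inv U
    exact h4

lemma nilpotent_of_factor {Q A : C} (u : Q ⟶ A) (v : A ⟶ Q) (h : NilM (v ≫ u)) :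
    NilM (u ≫ v) := by
  obtain ⟨c, hc⟩ : ∃ c : End A, c = (v ≫ u : A ⟶ A) := ⟨_, rfl⟩
  obtain ⟨d, hd⟩ : ∃ d : End Q, d = (u ≫ v : Q ⟶ Q) := ⟨_, rfl⟩
  have h0 : IsNilpotent c := by rw [hc]; exact h
  obtain ⟨k, hk⟩ := h0
  have h1 : ∀ n : ℕ, ((d ^ (n + 1) : End Q) : Q ⟶ Q) = u ≫ ((c ^ n : End A) : A ⟶ A) ≫ v := by
    intro n
    induction n with
    | zero =>
      rw [zero_add, pow_one, pow_zero, End.one_def, Category.id_comp, hd]
    | succ n ih =>
      rw [pow_succ, ih, pow_succ _ n, End.mul_def, End.mul_def, hd, hc]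
      simp only [Category.assoc]
  have h2 : (d ^ (k + 1) : End Q) = 0 := by
    rw [h1, hk, zero_comp, comp_zero]
  have h3 : IsNilpotent d := ⟨k + 1, h2⟩
  rw [hd] at h3
  exact h3

/-- A summand with nil kernel is a summand of the complement of a summand with zero realisation. -/
lemma summand_of_nil {M M' P T : C} (hD : DirectSum M M' P) (hP : IsZero (R.H.obj P))
    (hT : Summand T M) (hn : NilKernel R T) : Summand T M' := by
  obtain ⟨i, r, j, s, h1, h2, h3, h4, h5⟩ := hD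
  obtain ⟨x, y, hxy⟩ := hT
  obtain ⟨z, hz, -⟩ := inv_of_nilpotent (x ≫ r) (i ≫ y) ((x ≫ s) ≫ (j ≫ y) ) (by
    calc (x ≫ r) ≫ i ≫ y + (x ≫ s) ≫ j ≫ y = x ≫ (r ≫ i + s ≫ j) ≫ y := by
          rw [Preadditive.add_comp, Preadditive.comp_add]; simp only [Category.assoc]
      _ = 𝟙 T := by rw [h5, Category.id_comp, hxy])
    (hn _ (by rw [Functor.map_comp, hP.eq_zero_of_tgt (R.H.map (x ≫ s)), zero_comp]))
  exact ⟨x ≫ r, (i ≫ y) ≫ z, by rw [← Category.assoc, hz]⟩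

/-- A summand with zero realisation is a summand of the complement of a summand with nil kernel. -/
lemma summand_of_phantom {M M' P Q : C} (hD : DirectSum M M' P) (hM' : NilKernel R M')
    (hQ : Summand Q M) (hz : IsZero (R.H.obj Q)) : Summand Q P := by
  obtain ⟨i, r, j, s, h1, h2, h3, h4, h5⟩ := hD
  obtain ⟨x, y, hxy⟩ := hQ
  obtain ⟨z, hz, -⟩ := inv_of_nilpotent (x ≫ s) (j ≫ y) ((x ≫ r) ≫ (i ≫ y) ) (by
    calc (x ≫ s) ≫ j ≫ y + (x ≫ r) ≫ i ≫ y = x ≫ (r ≫ i + s ≫ j) ≫ y := by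
          rw [Preadditive.add_comp, Preadditive.comp_add, add_comm]; simp only [Category.assoc]
      _ = 𝟙 Q := by rw [h5, Category.id_comp, hxy])
    (nilpotent_of_factor _ _ (hM' _ (by
      rw [Functor.map_comp, hz.eq_zero_of_tgt (R.H.map (i ≫ y)), zero_comp])))
  exact ⟨x ≫ s, (j ≫ y) ≫ z, by rw [← Category.assoc, hz]⟩

lemma iso_of_inv {A B : C} (x : A ⟶ B) (y : B ⟶ A) (z : A ⟶ A) (z' : B ⟶ B)
    (hz : (x ≫ y) ≫ z = 𝟙 A) (hz' : z' ≫ (y ≫ x) = 𝟙 B) : Nonempty (A ≅ B) := by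
  -- `x` has the right inverse `y ≫ z` and the left inverse `z' ≫ y`
  have h1 : x ≫ (y ≫ z) = 𝟙 A := by rw [← Category.assoc, hz]
  have h2 : (z' ≫ y) ≫ x = 𝟙 B := by rw [Category.assoc, hz']
  have h3 : y ≫ z = z' ≫ y := by
    calc y ≫ z = ((z' ≫ y) ≫ x) ≫ (y ≫ z) := by rw [h2, Category.id_comp]
      _ = (z' ≫ y) ≫ (x ≫ (y ≫ z)) := by simp only [Category.assoc]
      _ = z' ≫ y := by rw [h1, Category.comp_id]
  exact ⟨⟨x, y ≫ z, h1, by rw [h3, h2]⟩⟩

/-- The decomposition is unique up to isomorphism. -/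
lemma unique_parts {M M' P M'' P' : C} (hD : DirectSum M M' P) (hD' : DirectSum M M'' P')
    (hM' : NilKernel R M') (hM'' : NilKernel R M'') (hP : IsZero (R.H.obj P))
    (hP' : IsZero (R.H.obj P')) : Nonempty (M' ≅ M'') ∧ Nonempty (P ≅ P') := by
  obtain ⟨i, r, j, s, h1, h2, h3, h4, h5⟩ := hD
  obtain ⟨i', r', j', s', h1', h2', h3', h4', h5'⟩ := hD'
  constructor
  · obtain ⟨z, hz, -⟩ := inv_of_nilpotent (i ≫ r') (i' ≫ r) ((i ≫ s') ≫ (j' ≫ r) ) (by
      calc (i ≫ r') ≫ i' ≫ r + (i ≫ s') ≫ j' ≫ r = i ≫ (r' ≫ i' + s' ≫ j') ≫ r := by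
            rw [Preadditive.add_comp, Preadditive.comp_add]; simp only [Category.assoc]
        _ = 𝟙 M' := by rw [h5', Category.id_comp, h1])
      (hM' _ (by rw [Functor.map_comp, hP'.eq_zero_of_tgt (R.H.map (i ≫ s')), zero_comp]))
    obtain ⟨z', -, hz'⟩ := inv_of_nilpotent (i' ≫ r) (i ≫ r') ((i' ≫ s) ≫ (j ≫ r') ) (by
      calc (i' ≫ r) ≫ i ≫ r' + (i' ≫ s) ≫ j ≫ r' = i' ≫ (r ≫ i + s ≫ j) ≫ r' := by
            rw [Preadditive.add_comp, Preadditive.comp_add]; simp only [Category.assoc]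
        _ = 𝟙 M'' := by rw [h5, Category.id_comp, h1'])
      (hM'' _ (by rw [Functor.map_comp, hP.eq_zero_of_tgt (R.H.map (i' ≫ s)), zero_comp]))
    exact iso_of_inv _ _ z z' hz hz'
  · obtain ⟨z, hz, -⟩ := inv_of_nilpotent (j ≫ s') (j' ≫ s) ((j ≫ r') ≫ (i' ≫ s) ) (by
      calc (j ≫ s') ≫ j' ≫ s + (j ≫ r') ≫ i' ≫ s = j ≫ (r' ≫ i' + s' ≫ j') ≫ s := by
            rw [Preadditive.add_comp, Preadditive.comp_add, add_comm]; simp only [Category.assoc]
        _ = 𝟙 P := by rw [h5', Category.id_comp, h2])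
      (nilpotent_of_factor _ _ (hM'' _ (by
        rw [Functor.map_comp, hP.eq_zero_of_tgt (R.H.map (i' ≫ s)), zero_comp])))
    obtain ⟨z', -, hz'⟩ := inv_of_nilpotent (j' ≫ s) (j ≫ s') ((j' ≫ r) ≫ (i ≫ s') ) (by
      calc (j' ≫ s) ≫ j ≫ s' + (j' ≫ r) ≫ i ≫ s' = j' ≫ (r ≫ i + s ≫ j) ≫ s' := by
            rw [Preadditive.add_comp, Preadditive.comp_add, add_comm]; simp only [Category.assoc]
        _ = 𝟙 P' := by rw [h5, Category.id_comp, h2'])
      (nilpotent_of_factor _ _ (hM' _ (by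
        rw [Functor.map_comp, hP'.eq_zero_of_tgt (R.H.map (i ≫ s')), zero_comp])))
    exact iso_of_inv _ _ z z' hz hz'

end

end Pool.Agent.Q73.NF
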