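import Pool.Agent.Q73.NF.PowDefs
import Pool.Agent.Q73.NF.Main
import Pool.Agent.Y112.SC.Main

/-!
# Nilpotence and exterior and symmetric powers
-/

set_option autoImplicit false
set_option linter.unusedSectionVars false
set_option backward.isDefEq.respectTransparency false
set_option backward.defeqAttrib.useBackward true

open CategoryTheory Limits MonoidalCategory

namespace Pool.Agent.Q73.NF

open Pool.Agent.Y112.SR Pool.Agent.Y112.KD Pool.Agent.Q263.KT
open Functor.LaxMonoidal Functor.OplaxMonoidal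

universe v u w

section

variable {C : Type u} [Category.{v} C] [Preadditive C] [Linear ℚ C] [MonoidalCategory C]
  [MonoidalPreadditive C] [MonoidalLinear ℚ C] [SymmetricCategory C]
  [RightRigidCategory C] {K : Type w} [Field K] {R : SuperRealisation C K}

lemma Dn_const {X : C} (f : X ⟶ X) (n : ℕ) : Dn n (fun _ => f) = tpm f n := by
  induction n with
  | zero => rfl
  | succ n ih =>
    have e1 : tpm f (n + 1) = tpm f n ⊗ₘ f := rfl
    rw [Dn_succ, e1, ih]

lemma map_tensor_zero {A B : C} (a : A ⟶ A) (f : B ⟶ B) (hf : R.H.map f = 0) :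
    R.H.map (a ⊗ₘ f) = 0 := by
  have h1 := Functor.Monoidal.map_tensor R.H a f
  rw [h1, hf]
  have h2 : (R.H.map a ⊗ₘ (0 : R.H.obj B ⟶ R.H.obj B)) = 0 := by
    rw [MonoidalCategory.tensorHom_def, MonoidalPreadditive.whiskerLeft_zero, comp_zero]
  rw [h2, zero_comp, comp_zero]

lemma nilKernel_of_power (hU : UnitQ C) {η : ℚ} (hη : η * η = 1) {M P : C} {n : ℕ}
    (hP : IsPowerOf η M P (n + 1)) (hN : NilKernel R P) : NilKernel R M := by
  intro f hf
  obtain ⟨i, r, hir, hri⟩ := hP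
  have hia : i ≫ asym η M (n + 1) = i := by rw [← hri, ← Category.assoc, hir, Category.id_comp]
  obtain ⟨φ, hφ⟩ : ∃ φ : End P, φ = (i ≫ tpm (f : M ⟶ M) (n + 1) ≫ r : P ⟶ P) := ⟨_, rfl⟩
  have hpow : ∀ k : ℕ, ((φ ^ (k + 1) : End P) : P ⟶ P) =
      i ≫ tpm ((f ^ (k + 1) : End M) : M ⟶ M) (n + 1) ≫ r := by
    intro k
    induction k with
    | zero => rw [zero_add, pow_one, pow_one, hφ]
    | succ k ih =>
      rw [pow_succ, End.mul_def, ih, hφ, pow_succ f (k + 1), End.mul_def]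
      calc (i ≫ tpm (f : M ⟶ M) (n + 1) ≫ r) ≫ i ≫
            tpm ((f ^ (k + 1) : End M) : M ⟶ M) (n + 1) ≫ r
          = i ≫ (tpm (f : M ⟶ M) (n + 1) ≫ (r ≫ i)) ≫
            tpm ((f ^ (k + 1) : End M) : M ⟶ M) (n + 1) ≫ r := by
            simp only [Category.assoc]
        _ = (i ≫ asym η M (n + 1)) ≫ (tpm (f : M ⟶ M) (n + 1) ≫
            tpm ((f ^ (k + 1) : End M) : M ⟶ M) (n + 1)) ≫ r := by
            rw [hri, asym_nat]; simp only [Category.assoc]
        _ = _ := by rw [hia, tpm_comp]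
  have hz : R.H.map (φ : P ⟶ P) = 0 := by
    have e1 : tpm (f : M ⟶ M) (n + 1) = tpm (f : M ⟶ M) n ⊗ₘ (f : M ⟶ M) := rfl
    rw [hφ, Functor.map_comp, Functor.map_comp, e1, map_tensor_zero _ _ hf, zero_comp, comp_zero]
  obtain ⟨k, hk⟩ := hN φ hz
  have hk1 : (φ ^ (k + 1) : End P) = 0 := by rw [pow_succ, hk, zero_mul]
  obtain ⟨g, hg⟩ : ∃ g : End M, g = f ^ (k + 1) := ⟨_, rfl⟩
  have h0 : i ≫ tpm (g : M ⟶ M) (n + 1) ≫ r = 0 := by
    rw [hg, ← hpow, hk1]
  have h1 : tpm (g : M ⟶ M) (n + 1) ≫ asym η M (n + 1) = 0 := by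
    calc tpm (g : M ⟶ M) (n + 1) ≫ asym η M (n + 1)
        = (tpm (g : M ⟶ M) (n + 1) ≫ asym η M (n + 1)) ≫ asym η M (n + 1) := by
          rw [Category.assoc, asym_idem hη]
      _ = asym η M (n + 1) ≫ tpm (g : M ⟶ M) (n + 1) ≫ asym η M (n + 1) := by
          rw [asym_nat, Category.assoc]
          rw [asym_nat]
      _ = r ≫ (i ≫ tpm (g : M ⟶ M) (n + 1) ≫ r) ≫ i := by
          rw [← hri]; simp only [Category.assoc]
      _ = 0 := by rw [h0, zero_comp, comp_zero]
  have hgg : gg η (n + 1) (fun _ : Fin (n + 1) => g) = 0 := by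
    rw [gg, Dn_const, h1, smul_zero]
  have hgz : ∀ m : ℕ, 1 ≤ m → trq hU M (g ^ m) = 0 := by
    intro m hm
    apply trq_zero (R := R) hU
    have h2 : rh R M (g ^ m) = 0 := by
      have h3 : rh R M f = 0 := hf
      rw [hg, map_pow, map_pow, h3, ← pow_mul, zero_pow]
      positivity
    exact h2
  have h2 := cc_gg hU hη n (fun _ : Fin (n + 1) => g)
  rw [hgg, map_zero] at h2
  have h3 := Pool.Agent.TH829.Kim.K_of_tr_zero (tr := trq hU M) (η := η) (h := g) hgz n
    (fun _ => 1) (fun _ => le_rfl)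
  simp only [pow_one] at h3
  rw [← h2] at h3
  have h4 : (g ^ (∑ _i : Fin (n + 1), 1) : End M) = 0 := by
    have h5 : (η ^ n * (n.factorial : ℚ)) ≠ 0 := by
      have : η ≠ 0 := fun h => by simp [h] at hη
      positivity
    exact (smul_eq_zero.1 h3.symm).resolve_left h5
  rw [hg, ← pow_mul] at h4
  exact ⟨_, h4⟩

end

end Pool.Agent.Q73.NF
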