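import Pool.Agent.Q73.NF.Pow

/-!
# Powers of a direct sum, and the realisation of a power
-/

set_option autoImplicit false
set_option linter.unusedSectionVars false
set_option backward.isDefEq.respectTransparency false
set_option backward.defeqAttrib.useBackward true

open CategoryTheory Limits MonoidalCategory

namespace Pool.Agent.Q73.NF

open Pool.Agent.Y112.SR Pool.Agent.Y112.KD Pool.Agent.Q263.KT Pool.Agent.Y112.SC
open Functor.LaxMonoidal Functor.OplaxMonoidal

universe v u w

section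

variable {C : Type u} [Category.{v} C] [Preadditive C] [Linear ℚ C] [MonoidalCategory C]
  [MonoidalPreadditive C] [MonoidalLinear ℚ C] [SymmetricCategory C]
  [RightRigidCategory C] {K : Type w} [Field K] {R : SuperRealisation C K}

/-- Membership in the image of the group algebra. -/
def Adj (X : C) (n : ℕ) (x : End (tp X n)) : Prop :=
  x ∈ Algebra.adjoin ℚ {s : End (tp X n) | IsSwap X n s}

lemma Adj.one (X : C) (n : ℕ) : Adj X n (𝟙 (tp X n)) :=
  Subalgebra.one_mem (Algebra.adjoin ℚ {s : End (tp X n) | IsSwap X n s})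

lemma Adj.swap {X : C} {n : ℕ} {s : tp X n ⟶ tp X n} (hs : IsSwap X n s) : Adj X n s :=
  Algebra.subset_adjoin hs

lemma Adj.add {X : C} {n : ℕ} {x y : tp X n ⟶ tp X n} (hx : Adj X n x) (hy : Adj X n y) :
    Adj X n (x + y) :=
  Subalgebra.add_mem (Algebra.adjoin ℚ {s : End (tp X n) | IsSwap X n s}) hx hy

lemma Adj.smul {X : C} {n : ℕ} {x : tp X n ⟶ tp X n} (hx : Adj X n x) (q : ℚ) :
    Adj X n (q • x) :=
  Subalgebra.smul_mem (Algebra.adjoin ℚ {s : End (tp X n) | IsSwap X n s}) hx q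

lemma Adj.comp {X : C} {n : ℕ} {x y : tp X n ⟶ tp X n} (hx : Adj X n x) (hy : Adj X n y) :
    Adj X n (x ≫ y) :=
  Subalgebra.mul_mem (Algebra.adjoin ℚ {s : End (tp X n) | IsSwap X n s}) hy hx

lemma lift_mem {X : C} {n : ℕ} {x : End (tp X n)} (hx : Adj X n x) :
    Adj X (n + 1) ((x : tp X n ⟶ tp X n) ▷ X) := by
  unfold Adj at hx
  induction hx using Algebra.adjoin_induction with
  | mem s hs => exact Adj.swap (IsSwap.lift n s hs)
  | algebraMap q =>
    have h1 : (algebraMap ℚ (End (tp X n)) q : tp X n ⟶ tp X n) = q • 𝟙 (tp X n) := by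
      rw [Algebra.algebraMap_eq_smul_one]
      rfl
    rw [h1, MonoidalLinear.smul_whiskerRight, id_whiskerRight]
    exact (Adj.one X (n + 1)).smul q
  | add x y _ _ hx hy =>
    have h1 : ((x + y : End (tp X n)) : tp X n ⟶ tp X n) ▷ X =
        (x : tp X n ⟶ tp X n) ▷ X + (y : tp X n ⟶ tp X n) ▷ X :=
      MonoidalPreadditive.add_whiskerRight _ _
    rw [h1]
    exact hx.add hy
  | mul x y _ _ hx hy =>
    have h1 : ((x * y : End (tp X n)) : tp X n ⟶ tp X n) ▷ X =
        (y : tp X n ⟶ tp X n) ▷ X ≫ (x : tp X n ⟶ tp X n) ▷ X := by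
      rw [End.mul_def, comp_whiskerRight]
    rw [h1]
    exact hy.comp hx

lemma asym_mem (η : ℚ) (X : C) : ∀ n : ℕ, Adj X n (asym η X n) ∧
    Adj X (n + 1) (asym η X (n + 1)) := by
  intro n
  induction n with
  | zero => exact ⟨Adj.one X 0, Adj.one X 1⟩
  | succ n ih =>
    refine ⟨ih.2, ?_⟩
    have h1 := lift_mem ih.2
    have h2 : Adj X (n + 2) (sw (tp X n) X) := Adj.swap (IsSwap.last n)
    rw [asym_succ]
    exact (h1.add ((h1.comp (h2.comp h1)).smul _)).smul _

lemma isSchurSummand {η : ℚ} {M P : C} {n : ℕ} (hP : IsPowerOf η M P n) :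
    IsSchurSummand M P n := by
  obtain ⟨i, r, hir, hri⟩ := hP
  exact ⟨i, r, hir, by rw [hri]; exact (asym_mem η M n).1⟩

lemma exists_power [IsIdempotentComplete C] {η : ℚ} (hη : η * η = 1) (M : C) (n : ℕ) :
    ∃ P : C, IsPowerOf η M P n := by
  obtain ⟨P, i, r, hir, hri⟩ := IsIdempotentComplete.idempotents_split (tp M n) (asym η M n)
    (asym_idem hη M n)
  exact ⟨P, i, r, hir, hri⟩

/-- The powers have a realisation if the operator does not vanish. -/
lemma map_asym_of_isZero {η : ℚ} {M P : C} {n : ℕ} (hP : IsPowerOf η M P n)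
    (h : IsZero (R.H.obj P)) : R.H.map (asym η M n) = 0 := by
  obtain ⟨i, r, hir, hri⟩ := hP
  rw [← hri, Functor.map_comp, h.eq_zero_of_tgt (R.H.map r), zero_comp]

lemma exists_vec {η : ℚ} (hη : η * η = 1) {M : C} (h : R.par M ≠ (-η : K) • 𝟙 _) :
    ∃ v : R.H.obj M, v ≠ 0 ∧ (R.par M).hom v = (η : K) • v := by
  have hc := R_charZero R
  have hη' : (η : K) * η = 1 := by exact_mod_cast hη
  by_contra hne
  apply h
  apply ModuleCat.hom_ext
  apply LinearMap.ext
  intro x
  have hpp : (R.par M).hom ((R.par M).hom x) = x := by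
    have h1 := LinearMap.congr_fun (congrArg ModuleCat.Hom.hom (R.par_sq M)) x
    exact h1
  have h1 : x + (η : K) • (R.par M).hom x = 0 := by
    by_contra h2
    apply hne
    refine ⟨_, h2, ?_⟩
    rw [map_add, map_smul, hpp, smul_add, smul_smul, hη', one_smul, add_comm]
  have h2 : (η : K) • x + (R.par M).hom x = 0 := by
    have h3 := congrArg (fun z => (η : K) • z) h1
    simp only [smul_add, smul_smul, hη', one_smul, smul_zero] at h3
    exact h3
  have h4 : (R.par M).hom x = (-η : K) • x := by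
    rw [neg_smul]
    exact eq_neg_of_add_eq_zero_right h2
  exact h4

lemma power_ne_zero {η : ℚ} (hη : η * η = 1) {M P : C} {n : ℕ} (hP : IsPowerOf η M P n)
    {v : R.H.obj M} (hv : v ≠ 0) (hv' : (R.par M).hom v = (η : K) • v) :
    ¬ IsZero (R.H.obj P) := by
  intro h
  have h1 := map_asym_of_isZero hP h
  have h2 := asym_vp R hη hv' n
  rw [h1] at h2
  exact vp_ne_zero R hv n h2.symm

lemma map_ptr_zero {M N : C} (x : M ⊗ N ⟶ M ⊗ N) (hx : R.H.map x = 0) :
    R.H.map (ptr x) = 0 := by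
  rw [← PT_map, hx]
  have h := PT_smul R (0 : K) (0 : R.H.obj (M ⊗ N) ⟶ R.H.obj (M ⊗ N))
  rw [smul_zero, zero_smul] at h
  exact h

lemma map_ff_zero {X : C} : ∀ (n : ℕ) (x : tp X n ⟶ tp X n), R.H.map x = 0 →
    R.H.map (ff X n x) = 0 := by
  intro n
  induction n with
  | zero => intro x hx; exact hx
  | succ n ih =>
    intro x hx
    exact ih (ptr x) (map_ptr_zero x hx)

/-- The powers of an object with realisation of the opposite parity, up to its dimension. -/
lemma power_ne_zero' (hU : UnitQ C) {η : ℚ} (hη : η * η = 1) {A S : C} {n : ℕ}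
    (hS : IsPowerOf η A S n) (hA : R.par A = (-η : K) • 𝟙 _)
    (hn : n ≤ Module.finrank K (R.H.obj A)) : ¬ IsZero (R.H.obj S) := by
  intro h
  have hc := R_charZero R
  have h1 := map_asym_of_isZero hS h
  have h2 : R.H.map (gg η n (fun _ : Fin n => (1 : End A))) = 0 := by
    rw [gg, R_smul, Functor.map_comp, h1, comp_zero, smul_zero]
  have h3 := map_ff_zero (R := R) n _ h2
  rw [ff_gg hU hη, F_one] at h3
  have h4 : trq hU A (1 : End A) = -η * Module.finrank K (R.H.obj A) :=
    trq_one R hU (-η) (by rw [hA]; push_cast; rfl)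
  rw [h4, R_smul, CategoryTheory.Functor.map_id] at h3
  have h5 : (𝟙 (R.H.obj (𝟙_ C)) : R.H.obj (𝟙_ C) ⟶ R.H.obj (𝟙_ C)) ≠ 0 := by
    intro h6
    have h7 : 𝟙 (𝟙_ (ModuleCat.{w} K)) = 0 := by
      rw [← Functor.Monoidal.ε_η R.H, ← Category.id_comp (Functor.OplaxMonoidal.η R.H), h6,
        zero_comp, comp_zero]
    have h8 := LinearMap.congr_fun (congrArg ModuleCat.Hom.hom h7) (1 : K)
    exact one_ne_zero h8
  have h6 : (((∏ i ∈ Finset.range n, (-η * (Module.finrank K (R.H.obj A) : ℚ) + η * i) : ℚ)) : K)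
      ≠ 0 := by
    have hη0 : η ≠ 0 := fun h => by simp [h] at hη
    have : (∏ i ∈ Finset.range n, (-η * (Module.finrank K (R.H.obj A) : ℚ) + η * i) : ℚ) ≠ 0 := by
      rw [Finset.prod_ne_zero_iff]
      intro i hi
      rw [Finset.mem_range] at hi
      have e1 : -η * (Module.finrank K (R.H.obj A) : ℚ) + η * i =
          η * ((i : ℚ) - Module.finrank K (R.H.obj A)) := by ring
      rw [e1]
      apply mul_ne_zero hη0
      have h7 : (i : ℚ) < Module.finrank K (R.H.obj A) := by exact_mod_cast lt_of_lt_of_le hi hn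
      exact ne_of_lt (by linarith)
    exact_mod_cast this
  exact h5 ((smul_eq_zero.1 h3).resolve_left h6)

end

end Pool.Agent.Q73.NF
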