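import Pool.Agent.Q73.NF.Pow2

/-!
# Kimura-finiteness and exterior and symmetric powers
-/

set_option autoImplicit false
set_option linter.unusedSectionVars false
set_option backward.isDefEq.respectTransparency false
set_option backward.defeqAttrib.useBackward true

open CategoryTheory Limits MonoidalCategory

namespace Pool.Agent.Q73.NF

open Pool.Agent.Y112.SR Pool.Agent.Y112.KD Pool.Agent.Q263.KT Pool.Agent.Y112.SC
open Functor.LaxMonoidal Functor.OplaxMonoidal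

universe v u w

section

variable {C : Type u} [Category.{v} C] [Preadditive C] [Linear ℚ C] [MonoidalCategory C]
  [MonoidalPreadditive C] [MonoidalLinear ℚ C] [SymmetricCategory C]
  [RightRigidCategory C] {K : Type w} [Field K] {R : SuperRealisation C K}

lemma tensor_whisker {Q Q' X Y : C} (z : Q ⟶ Q') (p : X ⟶ Y) (a : Q' ⟶ Q') :
    (z ⊗ₘ p) ≫ a ▷ Y = (z ≫ a) ⊗ₘ p := by
  rw [← tensorHom_id, tensorHom_comp_tensorHom, Category.comp_id]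

lemma whisker_tensor {Q Q' X Y : C} (z : Q ⟶ Q') (p : X ⟶ Y) (a : Q ⟶ Q) :
    a ▷ X ≫ (z ⊗ₘ p) = (a ≫ z) ⊗ₘ p := by
  rw [← tensorHom_id, tensorHom_comp_tensorHom, Category.id_comp]

/-- The compression of the (anti)symmetrizer of a direct sum. -/
lemma asym_compress {η : ℚ} {M A B : C} (iA : A ⟶ M) (rA : M ⟶ A)
    (iB : B ⟶ M) (rB : M ⟶ B) (hA : iA ≫ rA = 𝟙 A) (hB : iB ≫ rB = 𝟙 B) (hAB : iA ≫ rB = 0)
    (n : ℕ) :
    (tpm iB n ⊗ₘ iA) ≫ asym η M (n + 1) ≫ (tpm rB n ⊗ₘ rA) =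
      ((n : ℚ) + 1)⁻¹ • (asym η B n ⊗ₘ 𝟙 A) := by
  rcases n with - | m
  · rw [asym_one, Category.id_comp, tensorHom_comp_tensorHom, hA]
    simp [tpm, asym_zero]
  · have hmain : (tpm iB (m + 1) ⊗ₘ iA) ≫ asym η M (m + 1) ▷ M ≫ (tpm rB (m + 1) ⊗ₘ rA) =
        asym η B (m + 1) ⊗ₘ 𝟙 A := by
      rw [← Category.assoc, tensor_whisker, tensorHom_comp_tensorHom, hA, asym_nat,
        Category.assoc, tpm_comp, hB, tpm_id, Category.comp_id]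
    have h1 : tpm iB (m + 1) ⊗ₘ iA =
        (tpm iB (m + 1) ⊗ₘ iA) ≫ ((tpm (rB ≫ iB) m ⊗ₘ (rB ≫ iB)) ⊗ₘ (rA ≫ iA)) := by
      have e1 : tpm (rB ≫ iB) (m + 1) = tpm (rB ≫ iB) m ⊗ₘ (rB ≫ iB) := rfl
      rw [← e1, tensorHom_comp_tensorHom, tpm_comp, ← Category.assoc iB, hB, Category.id_comp,
        ← Category.assoc iA, hA, Category.id_comp]
    have h2 : tpm rB (m + 1) ⊗ₘ rA =
        ((tpm (rB ≫ iB) m ⊗ₘ (rB ≫ iB)) ⊗ₘ (rA ≫ iA)) ≫ (tpm rB (m + 1) ⊗ₘ rA) := by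
      have e1 : tpm (rB ≫ iB) (m + 1) = tpm (rB ≫ iB) m ⊗ₘ (rB ≫ iB) := rfl
      rw [← e1, tensorHom_comp_tensorHom, tpm_comp, Category.assoc, hB, Category.comp_id,
        Category.assoc, hA, Category.comp_id]
    have hz : (tpm iB (m + 1) ⊗ₘ iA) ≫ sw (tp M m) M ≫ (tpm rB (m + 1) ⊗ₘ rA) = 0 := by
      rw [h1, h2]
      have e2 := sw_nat (tpm (rB ≫ iB) m) (rB ≫ iB) (rA ≫ iA)
      have e3 : ((tpm (rB ≫ iB) m ⊗ₘ (rA ≫ iA)) ⊗ₘ (rB ≫ iB)) ≫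
          ((tpm (rB ≫ iB) m ⊗ₘ (rB ≫ iB)) ⊗ₘ (rA ≫ iA)) = 0 := by
        have e4 : (rA ≫ iA) ≫ (rB ≫ iB) = 0 := by
          rw [Category.assoc, ← Category.assoc iA, hAB, zero_comp, comp_zero]
        rw [tensorHom_comp_tensorHom, tensorHom_comp_tensorHom, e4]
        have e5 : ((tpm (rB ≫ iB) m ≫ tpm (rB ≫ iB) m) ⊗ₘ (0 : M ⟶ M)) = 0 := by
          rw [MonoidalCategory.tensorHom_def, MonoidalPreadditive.whiskerLeft_zero, comp_zero]
        rw [e5, MonoidalCategory.tensorHom_def, MonoidalPreadditive.zero_whiskerRight, zero_comp]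
      simp only [Category.assoc]
      rw [← Category.assoc ((tpm (rB ≫ iB) m ⊗ₘ (rB ≫ iB)) ⊗ₘ (rA ≫ iA)) (sw (tp M m) M), e2]
      simp only [Category.assoc]
      rw [← Category.assoc ((tpm (rB ≫ iB) m ⊗ₘ (rA ≫ iA)) ⊗ₘ (rB ≫ iB)), e3, zero_comp,
        comp_zero, comp_zero]
    have hside : (tpm iB (m + 1) ⊗ₘ iA) ≫ (asym η M (m + 1) ▷ M ≫ sw (tp M m) M ≫
        asym η M (m + 1) ▷ M) ≫ (tpm rB (m + 1) ⊗ₘ rA) = 0 := by
      have e1 : (tpm iB (m + 1) ⊗ₘ iA) ≫ asym η M (m + 1) ▷ M =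
          asym η B (m + 1) ▷ A ≫ (tpm iB (m + 1) ⊗ₘ iA) := by
        rw [tensor_whisker, whisker_tensor, asym_nat]
      have e2 : asym η M (m + 1) ▷ M ≫ (tpm rB (m + 1) ⊗ₘ rA) =
          (tpm rB (m + 1) ⊗ₘ rA) ≫ asym η B (m + 1) ▷ A := by
        rw [tensor_whisker, whisker_tensor, asym_nat]
      calc (tpm iB (m + 1) ⊗ₘ iA) ≫ (asym η M (m + 1) ▷ M ≫ sw (tp M m) M ≫
            asym η M (m + 1) ▷ M) ≫ (tpm rB (m + 1) ⊗ₘ rA)
          = ((tpm iB (m + 1) ⊗ₘ iA) ≫ asym η M (m + 1) ▷ M) ≫ sw (tp M m) M ≫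
            (asym η M (m + 1) ▷ M ≫ (tpm rB (m + 1) ⊗ₘ rA)) := by simp only [Category.assoc]
        _ = asym η B (m + 1) ▷ A ≫ ((tpm iB (m + 1) ⊗ₘ iA) ≫ sw (tp M m) M ≫
            (tpm rB (m + 1) ⊗ₘ rA)) ≫ asym η B (m + 1) ▷ A := by
            rw [e1, e2]; simp only [Category.assoc]
        _ = 0 := by rw [hz, zero_comp, comp_zero]
    rw [asym_succ, Linear.smul_comp, Linear.comp_smul, Preadditive.add_comp,
      Preadditive.comp_add, hmain, Linear.smul_comp, Linear.comp_smul, hside, smul_zero, add_zero]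

/-- The tensor product of a power of `B` and of `A` is a direct summand of the power of `A ⊕ B`. -/
lemma retract_power {η : ℚ} {M A B P S : C} (iA : A ⟶ M) (rA : M ⟶ A)
    (iB : B ⟶ M) (rB : M ⟶ B) (hA : iA ≫ rA = 𝟙 A) (hB : iB ≫ rB = 𝟙 B) (hAB : iA ≫ rB = 0)
    {n : ℕ} (hP : IsPowerOf η M P (n + 1)) (hS : IsPowerOf η B S n) :
    ∃ (u : S ⊗ A ⟶ P) (v : P ⟶ S ⊗ A), u ≫ v = 𝟙 (S ⊗ A) := by
  obtain ⟨i, r, hir, hri⟩ := hP
  obtain ⟨j, s, hjs, hsj⟩ := hS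
  have hn : ((n : ℚ) + 1) ≠ 0 := by positivity
  refine ⟨(j ⊗ₘ 𝟙 A) ≫ (tpm iB n ⊗ₘ iA) ≫ r,
    ((n : ℚ) + 1) • (i ≫ (tpm rB n ⊗ₘ rA) ≫ (s ⊗ₘ 𝟙 A)), ?_⟩
  rw [Linear.comp_smul]
  have h1 : ((j ⊗ₘ 𝟙 A) ≫ (tpm iB n ⊗ₘ iA) ≫ r) ≫ i ≫ (tpm rB n ⊗ₘ rA) ≫ (s ⊗ₘ 𝟙 A) =
      ((n : ℚ) + 1)⁻¹ • 𝟙 (S ⊗ A) := by
    calc ((j ⊗ₘ 𝟙 A) ≫ (tpm iB n ⊗ₘ iA) ≫ r) ≫ i ≫ (tpm rB n ⊗ₘ rA) ≫ (s ⊗ₘ 𝟙 A)
        = (j ⊗ₘ 𝟙 A) ≫ ((tpm iB n ⊗ₘ iA) ≫ (r ≫ i) ≫ (tpm rB n ⊗ₘ rA)) ≫ (s ⊗ₘ 𝟙 A) := by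
          simp only [Category.assoc]
      _ = ((n : ℚ) + 1)⁻¹ • ((j ⊗ₘ 𝟙 A) ≫ (asym η B n ⊗ₘ 𝟙 A) ≫ (s ⊗ₘ 𝟙 A)) := by
          rw [hri, asym_compress iA rA iB rB hA hB hAB, Linear.smul_comp, Linear.comp_smul]
      _ = ((n : ℚ) + 1)⁻¹ • 𝟙 (S ⊗ A) := by
          rw [← hsj, tensorHom_comp_tensorHom, tensorHom_comp_tensorHom]
          congr 1
          rw [Category.assoc, hjs, Category.comp_id, hjs]
          simp
  rw [h1, smul_smul, mul_inv_cancel₀ hn, one_smul]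

lemma isKimura_of_pure (hU : UnitQ C) {M E O : C} (i : E ⟶ M) (r : M ⟶ E) (j : O ⟶ M)
    (s : M ⟶ O) (h1 : i ≫ r = 𝟙 E) (h2 : j ≫ s = 𝟙 O) (h3 : i ≫ s = 0) (h4 : j ≫ r = 0)
    (h5 : r ≫ i + s ≫ j = 𝟙 M) (hE : R.par E = 𝟙 _) (hO : R.par O = -𝟙 _)
    (kE : IsKimura E) (kO : IsKimura O) : IsKimura M := by
  obtain ⟨D⟩ := exists_KD kE
  obtain ⟨D'⟩ := exists_KD kO
  have e1 := (D.pure (R := R) hU (𝟙 E) (𝟙 E) (Category.comp_id _)).1 hE
  have e2 := (D'.pure (R := R) hU (𝟙 O) (𝟙 O) (Category.comp_id _)).2 hO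
  exact ⟨E, O, i, r, j, s, h1, h2, h3, h4, h5, kills_of_asym neg_one_sq e1,
    kills_of_asym (by norm_num) e2⟩

/-- The two pure parts of a mixed object with a Kimura-finite power. -/
theorem power_mixed [IsIdempotentComplete C] (hU : UnitQ C) {η : ℚ} (hη : η = 1 ∨ η = -1)
    {M P : C} {n : ℕ} (hP : IsPowerOf η M P (n + 1)) (hK : IsKimura P) (hM : IsMixed R M) :
    ∃ A B : C, DirectSum M A B ∧ R.par A = (-η : K) • 𝟙 _ ∧ R.par B = (η : K) • 𝟙 _ ∧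
      ¬ IsZero (R.H.obj A) ∧ IsKimura A ∧
      (n ≤ Module.finrank K (R.H.obj A) → IsKimura M) := by
  have hc := R_charZero R
  have hη2 : η * η = 1 := by rcases hη with h | h <;> rw [h] <;> norm_num
  have hmix : R.par M ≠ (-η : K) • 𝟙 _ ∧ R.par M ≠ (η : K) • 𝟙 _ := by
    rcases hη with h | h <;> rw [h]
    · constructor
      · intro h'; apply hM.2; rw [h']; simp
      · intro h'; apply hM.1; rw [h']; simp
    · constructor
      · intro h'; apply hM.1; rw [h']; simp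
      · intro h'; apply hM.2; rw [h']; simp
  obtain ⟨v, hv, hv'⟩ := exists_vec hη2 hmix.1
  have hP0 : ¬ IsZero (R.H.obj P) := power_ne_zero hη2 hP hv hv'
  have hcM : R.CPlus M := by
    obtain ⟨D⟩ := exists_KD hK
    exact (schur_iff R (Nat.succ_pos n) (isSchurSummand hP) hP0).1 D.cplus
  have hnM : NilKernel R M := nilKernel_of_power hU hη2 hP (nilKernel_of_isKimura hU hK)
  obtain ⟨E, O, i, r, j, s, h1, h2, h3, h4, h5, h6, h7⟩ := exists_parts hnM hcM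
  -- the parts
  have hcase : ∃ (A B : C) (iA : A ⟶ M) (rA : M ⟶ A) (iB : B ⟶ M) (rB : M ⟶ B),
      iA ≫ rA = 𝟙 A ∧ iB ≫ rB = 𝟙 B ∧ iA ≫ rB = 0 ∧ iB ≫ rA = 0 ∧ rA ≫ iA + rB ≫ iB = 𝟙 M ∧
      R.par A = (-η : K) • 𝟙 _ ∧ R.par B = (η : K) • 𝟙 _ ∧
      (IsKimura A → IsKimura B → IsKimura M) := by
    rcases hη with h | h
    · refine ⟨O, E, j, s, i, r, h2, h1, h4, h3, by rw [add_comm]; exact h5, ?_, ?_, ?_⟩
      · rw [h7, h]; simp
      · rw [h6, h]; simp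
      · exact fun kO kE => isKimura_of_pure hU i r j s h1 h2 h3 h4 h5 h6 h7 kE kO
    · refine ⟨E, O, i, r, j, s, h1, h2, h3, h4, h5, ?_, ?_, ?_⟩
      · rw [h6, h]; simp
      · rw [h7, h]; simp
      · exact fun kE kO => isKimura_of_pure hU i r j s h1 h2 h3 h4 h5 h6 h7 kE kO
  obtain ⟨A, B, iA, rA, iB, rB, a1, a2, a3, a4, a5, a6, a7, a8⟩ := hcase
  have hsum : R.par M = R.H.map rA ≫ R.par A ≫ R.H.map iA + R.H.map rB ≫ R.par B ≫ R.H.map iB := by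
    have e1 : R.par M = R.H.map (rA ≫ iA + rB ≫ iB) ≫ R.par M := by
      rw [a5, CategoryTheory.Functor.map_id, Category.id_comp]
    rw [e1, Functor.map_add, Preadditive.add_comp, Functor.map_comp, Functor.map_comp,
      Category.assoc, Category.assoc, R.par_natural, R.par_natural]
  have hone : (𝟙 (R.H.obj M)) = R.H.map rA ≫ R.H.map iA + R.H.map rB ≫ R.H.map iB := by
    rw [← Functor.map_comp, ← Functor.map_comp, ← Functor.map_add, a5,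
      CategoryTheory.Functor.map_id]
  have hA0 : ¬ IsZero (R.H.obj A) := by
    intro hz
    apply hmix.2
    rw [hsum, hone, hz.eq_zero_of_tgt (R.H.map rA), zero_comp, zero_comp, zero_add, zero_add, a7,
      Linear.smul_comp, Linear.comp_smul, Category.id_comp]
  have hB0 : ¬ IsZero (R.H.obj B) := by
    intro hz
    apply hmix.1
    rw [hsum, hone, hz.eq_zero_of_tgt (R.H.map rB), zero_comp, zero_comp, add_zero, add_zero, a6,
      Linear.smul_comp, Linear.comp_smul, Category.id_comp]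
  have kA : IsKimura A := by
    obtain ⟨S, hS⟩ := exists_power hη2 B n
    obtain ⟨u, v, huv⟩ := retract_power iA rA iB rB a1 a2 a3 hP hS
    have hSA : IsKimura (S ⊗ A) := isKimura_of_retract R hU u v huv hK
    have hB1 : R.par B ≠ (-η : K) • 𝟙 _ := by
      intro h
      rw [a7] at h
      apply hB0
      rw [IsZero.iff_id_eq_zero]
      have e1 : ((η : K) + η) • 𝟙 (R.H.obj B) = 0 := by
        rw [add_smul]
        nth_rewrite 1 [h]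
        rw [neg_smul, neg_add_cancel]
      have hη0 : (η : K) + η ≠ 0 := by
        have : η ≠ 0 := fun h => by simp [h] at hη2
        rw [← two_mul]
        exact mul_ne_zero two_ne_zero (by exact_mod_cast this)
      exact (smul_eq_zero.1 e1).resolve_left hη0
    obtain ⟨w, hw, hw'⟩ := exists_vec hη2 hB1
    have hS0 : ¬ IsZero (R.H.obj S) := power_ne_zero hη2 hS hw hw'
    have hAS : IsKimura (A ⊗ S) :=
      isKimura_of_retract R hU (β_ A S).hom (β_ A S).inv (by simp) hSA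
    exact isKimura_of_tensor R hU hS0 (Or.inl hA0) hAS
  refine ⟨A, B, ⟨iA, rA, iB, rB, a1, a2, a3, a4, a5⟩, a6, a7, hA0, kA, fun hn => a8 kA ?_⟩
  obtain ⟨S, hS⟩ := exists_power hη2 A n
  obtain ⟨u, v, huv⟩ := retract_power iB rB iA rA a2 a1 a4 hP hS
  have hSB : IsKimura (S ⊗ B) := isKimura_of_retract R hU u v huv hK
  have hS0 : ¬ IsZero (R.H.obj S) := power_ne_zero' hU hη2 hS a6 hn
  have hBS : IsKimura (B ⊗ S) :=
    isKimura_of_retract R hU (β_ B S).hom (β_ B S).inv (by simp) hSB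
  exact isKimura_of_tensor R hU hS0 (Or.inl hB0) hBS

end

end Pool.Agent.Q73.NF
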