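import Pool.Agent.Q73.NF.Defs

/-!
# Symmetric and exterior powers: definitions
-/

set_option autoImplicit false

open CategoryTheory Limits MonoidalCategory

namespace Pool.Agent.Q73.NF

open Pool.Agent.Y112.SR Pool.Agent.Y112.KD

universe v u w

section

variable {C : Type u} [Category.{v} C] [MonoidalCategory C] [SymmetricCategory C]
  [Preadditive C] [Linear ℚ C]

/-- `P` is the `n`-th symmetric power (`η = 1`) or the `n`-th exterior power (`η = -1`) of `M`: the
direct summand of the tensor power `tp M n` which is cut out by the symmetrizer or by the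
antisymmetrizer `asym η M n`. -/
def IsPowerOf (η : ℚ) (M P : C) (n : ℕ) : Prop :=
  ∃ (i : P ⟶ tp M n) (r : tp M n ⟶ P), i ≫ r = 𝟙 P ∧ r ≫ i = asym η M n

end

section

variable {C : Type u} [Category.{v} C] [Preadditive C] [MonoidalCategory C] [SymmetricCategory C]
  {K : Type w} [Field K] (R : SuperRealisation C K)

/-- The realisation of `M` is neither even nor odd. -/
def IsMixed (M : C) : Prop := R.par M ≠ 𝟙 _ ∧ R.par M ≠ -𝟙 _

end

end Pool.Agent.Q73.NF
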